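import Mathlib

namespace Pool.Agent.Results.MP_d17388_co.QSix

/-- The hypercube `Q_d`. -/
def Q (d : ℕ) : SimpleGraph (Fin d → Bool) where
  Adj x y := hammingDist x y = 1
  symm := ⟨fun x y h => by rwa [hammingDist_comm]⟩
  loopless := ⟨fun x h => by simp at h⟩

/-- One round of simultaneous forcing. -/
def step {V : Type} (G : SimpleGraph V) (S : Set V) : Set V :=
  S ∪ {w | w ∉ S ∧ ∃ v ∈ S, G.Adj v w ∧ ∀ u, G.Adj v u → u ∉ S → u = w}

/-- `S` is a zero forcing set. -/
def IsZFS {V : Type} (G : SimpleGraph V) (S : Finset V) : Prop :=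
  ∃ t, (step G)^[t] S = Set.univ

/-- `S` is a minimum zero forcing set. -/
def IsMinZFS {V : Type} (G : SimpleGraph V) (S : Finset V) : Prop :=
  IsZFS G S ∧ ∀ T, IsZFS G T → S.card ≤ T.card

/-- The propagation time of `S`. -/
noncomputable def pt {V : Type} (G : SimpleGraph V) (S : Finset V) : ℕ :=
  sInf {t | (step G)^[t] S = Set.univ}

def flip {d : ℕ} (x : Fin d → Bool) (i : Fin d) : Fin d → Bool := Function.update x i (!x i)

theorem flip_flip {d : ℕ} (x : Fin d → Bool) (i : Fin d) : flip (flip x i) i = x := by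
  simp [flip]

theorem flip_comm {d : ℕ} (x : Fin d → Bool) (i j : Fin d) :
    flip (flip x i) j = flip (flip x j) i := by
  by_cases h : i = j
  · rw [h]
  · unfold flip
    rw [Function.update_of_ne (Ne.symm h), Function.update_of_ne h, Function.update_comm h]

theorem flip_inj {d : ℕ} (x : Fin d → Bool) {i j : Fin d} (h : flip x i = flip x j) : i = j := by
  by_contra hne
  have := congrFun h i
  simp [flip, Function.update_of_ne hne] at this

theorem adj_iff {d : ℕ} (x y : Fin d → Bool) : (Q d).Adj x y ↔ ∃ i, y = flip x i := by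
  change hammingDist x y = 1 ↔ _
  unfold hammingDist
  rw [Finset.card_eq_one]
  refine exists_congr (fun i => ?_)
  simp only [Finset.ext_iff, Finset.mem_filter, Finset.mem_univ, true_and, Finset.mem_singleton,
    funext_iff, flip]
  refine forall_congr' (fun j => ?_)
  by_cases h : j = i
  · subst h; cases x j <;> cases hy : y j <;> simp
  · simp [h, eq_comm]

theorem mem_step {d : ℕ} (S : Set (Fin d → Bool)) (w : Fin d → Bool) :
    w ∈ step (Q d) S ↔ w ∈ S ∨ ∃ i, flip w i ∈ S ∧ ∀ j, j = i ∨ flip (flip w i) j ∈ S := by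
  by_cases hw : w ∈ S
  · simp [step, hw]
  · simp only [step, Set.mem_union, hw, false_or, Set.mem_ofPred_eq, not_false_eq_true, true_and,
      adj_iff]
    constructor
    · rintro ⟨v, hv, ⟨i, rfl⟩, h⟩
      refine ⟨i, by rwa [flip_flip], fun j => ?_⟩
      rw [flip_flip]
      by_contra hn
      push Not at hn
      exact hn.1 (flip_inj v (h _ ⟨j, rfl⟩ hn.2))
    · rintro ⟨i, h1, h2⟩
      refine ⟨_, h1, ⟨i, (flip_flip _ _).symm⟩, ?_⟩
      rintro u ⟨j, rfl⟩ hu
      rcases h2 j with rfl | h
      · exact flip_flip _ _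
      · exact absurd h hu

theorem vanish {d : ℕ} (X : (Fin d → Bool) → ZMod 2) (hX : ∀ v, ∑ i, X (flip v i) = 0) (t : ℕ) :
    ∀ S : Set (Fin d → Bool), (∀ v ∈ S, X v = 0) → ∀ v ∈ (step (Q d))^[t] S, X v = 0 := by
  induction t with
  | zero => exact fun S h => h
  | succ t ih =>
    intro S h
    rw [Function.iterate_succ_apply]
    refine ih _ (fun w hw => ?_)
    rcases (mem_step S w).mp hw with hw | ⟨i, _, h2⟩
    · exact h w hw
    · have := hX (flip w i)
      rw [Finset.sum_eq_single i (fun j _ hj => h _ ((h2 j).resolve_left hj)) (by simp),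
        flip_flip] at this
      exact this

def ext (f : (Fin 5 → Bool) → ZMod 2) (x : Fin 6 → Bool) : ZMod 2 :=
  if x 0 then ∑ i, f (flip (Fin.tail x) i) else f (Fin.tail x)

theorem ext_ker (f : (Fin 5 → Bool) → ZMod 2) (v : Fin 6 → Bool) :
    ∑ i, ext f (flip v i) = 0 := by
  have h2 : ∀ a : ZMod 2, a + a = 0 := by decide
  have e1 : Fin.tail (flip v 0) = Fin.tail v := by simp [flip]
  have e2 : ∀ i : Fin 5, Fin.tail (flip v i.succ) = flip (Fin.tail v) i := by
    intro i; simp [flip, Fin.tail_update_succ, Fin.tail]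
  have e3 : ∀ i : Fin 5, flip v i.succ 0 = v 0 := by
    intro i; simp [flip, (Fin.succ_ne_zero i).symm]
  have e4 : flip v 0 0 = !v 0 := by simp [flip]
  rw [Fin.sum_univ_succ]
  simp only [ext, e1, e2, e3, e4]
  cases v 0
  · simpa using h2 _
  · simp only [Bool.not_true, Bool.false_eq_true, if_false, if_true, Fin.sum_univ_five, flip_flip,
      flip_comm _ (1 : Fin 5) 0, flip_comm _ (2 : Fin 5) 0, flip_comm _ (3 : Fin 5) 0,
      flip_comm _ (4 : Fin 5) 0, flip_comm (Fin.tail v) (2 : Fin 5) 1,
      flip_comm (Fin.tail v) (3 : Fin 5) 1, flip_comm (Fin.tail v) (4 : Fin 5) 1,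
      flip_comm (Fin.tail v) (3 : Fin 5) 2, flip_comm (Fin.tail v) (4 : Fin 5) 2,
      flip_comm (Fin.tail v) (4 : Fin 5) 3]
    have h0 : (2 : ZMod 2) = 0 := by decide
    set t := Fin.tail v
    linear_combination (3 * f t + f (flip (flip t 0) 1) + f (flip (flip t 0) 2) +
      f (flip (flip t 0) 3) + f (flip (flip t 0) 4) + f (flip (flip t 1) 2) +
      f (flip (flip t 1) 3) + f (flip (flip t 1) 4) + f (flip (flip t 2) 3) +
      f (flip (flip t 2) 4) + f (flip (flip t 3) 4)) * h0

theorem lower (T : Finset (Fin 6 → Bool)) (hT : IsZFS (Q 6) T) : 32 ≤ T.card := by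
  obtain ⟨t, ht⟩ := hT
  have inj : Function.Injective
      (fun (f : (Fin 5 → Bool) → ZMod 2) (s : T) => ext f s) := by
    intro f g h
    have hsub : ∀ x, ext (f - g) x = ext f x - ext g x := by
      intro x; unfold ext; split_ifs <;> simp
    have := vanish (ext (f - g)) (ext_ker _) t T
      (fun v hv => by rw [hsub, sub_eq_zero]; exact congrFun h ⟨v, hv⟩)
    rw [ht] at this
    funext y
    have := this (Fin.cons false y) (Set.mem_univ _)
    simpa [ext, sub_eq_zero] using this
  have := Fintype.card_le_of_injective _ inj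
  simp only [Fintype.card_fun, ZMod.card, Fintype.card_bool, Fintype.card_fin,
    Fintype.card_coe] at this
  exact (Nat.pow_le_pow_iff_right (by norm_num)).mp this

def code (x : Fin 6 → Bool) : ℕ :=
  (x 0).toNat + 2 * (x 1).toNat + 4 * (x 2).toNat + 8 * (x 3).toNat + 16 * (x 4).toNat +
    32 * (x 5).toNat

def M (t : ℕ) : ℕ := [6015205885754524624,
    6015205885754590160,
    6015205885758784464,
    6015205885758784468,
    6016331785665627092,
    6052360582684591060,
    8358203591898285012,
    8358221184084329428,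
    8358361921572684756,
    8358361955932423124,
    8934822708235846612,
    8934824907259102164,
    8934860095926160340,
    18158232132780944342,
    18158232135473687510,
    18158232136547429334,
    18446462512833362902,
    18446744056529682422,
    18446744073709551615].getD t 0

def P (t : ℕ) (x : Fin 6 → Bool) : Prop := (M t).testBit (code x) = true

instance (t : ℕ) : DecidablePred (P t) := fun _ => inferInstanceAs (Decidable (_ = true))

theorem chain : ∀ t < 18, ∀ w, P (t + 1) w ↔
    P t w ∨ ∃ i, P t (flip w i) ∧ ∀ j, j = i ∨ P t (flip (flip w i) j) := by decide +kernel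

def S : Finset (Fin 6 → Bool) := Finset.univ.filter (P 0)

theorem iter (t : ℕ) (ht : t ≤ 18) : (step (Q 6))^[t] S = {x | P t x} := by
  induction t with
  | zero => ext x; simp [S]
  | succ t ih =>
    rw [Function.iterate_succ_apply', ih (by omega)]
    ext w
    rw [mem_step]
    exact (chain t (by omega) w).symm

theorem result : ∃ d : ℕ, 2 ≤ d ∧ ∃ S : Finset (Fin d → Bool), IsMinZFS (Q d) S ∧
    2 ^ (d - 2) < pt (Q d) S := by
  have h18 : (step (Q 6))^[18] S = Set.univ := by
    rw [iter 18 le_rfl, Set.eq_univ_iff_forall]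
    simp only [Set.mem_ofPred_eq]
    decide +kernel
  refine ⟨6, by norm_num, S, ⟨⟨18, h18⟩, fun T hT => ?_⟩, ?_⟩
  · have : S.card = 32 := by decide +kernel
    rw [this]; exact lower T hT
  · refine lt_of_lt_of_le (by norm_num : 2 ^ (6 - 2) < 18) (le_csInf ⟨18, h18⟩ (fun t ht => ?_))
    by_contra h
    have key : ∀ t < 18, ¬ ∀ x, P t x := by decide +kernel
    have ht' : (step (Q 6))^[t] S = Set.univ := ht
    rw [iter t (by omega), Set.eq_univ_iff_forall] at ht'
    exact key t (by omega) ht'

end Pool.Agent.Results.MP_d17388_co.QSix
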